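import Pool.Agent.Helper35.MP.Main

/-!
# The Metropolis chain: events with small conditional probability

`win`: an event which is decided by the slots before `τ + t` and has conditional probability `≤ p`
over free letters in the slots `τ ≤ k < τ + t`, for all the other letters, has probability `≤ p` for the
chain which is free in these slots. `cond`: so its Metropolis mass is `≤ c` as soon as
`p < c exp (-(D + 1) / c)`. `many`: Markov's inequality for the number of such events.
`metropolisG`: the theorem `metropolis` with an additional path event.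
-/

set_option autoImplicit false
set_option linter.unusedSectionVars false

namespace Pool.Agent.Helper35.MP

open Finset

variable {X Lam : Type*} [Fintype X] [Fintype Lam] [DecidableEq Lam]

/-- overwrite the letters of the slots `τ ≤ k < τ + t` -/
def ovr {Lam : Type*} {M : ℕ} (ls : Fin M → Lam) (τ t : ℕ) (u : Fin t → Lam) (k : Fin M) : Lam :=
  if h : τ ≤ k.val ∧ k.val < τ + t then u ⟨k.val - τ, by omega⟩ else ls k

theorem ovr_zero {M : ℕ} (ls : Fin M → Lam) (τ : ℕ) (u : Fin 0 → Lam) : ovr ls τ 0 u = ls := by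
  funext k
  unfold ovr
  rw [dif_neg (by omega)]

theorem ovr_succ {M : ℕ} (l : Lam) (ls : Fin M → Lam) (τ t : ℕ) (u : Fin t → Lam) :
    ovr (Fin.cons l ls : Fin (M + 1) → Lam) (τ + 1) t u = Fin.cons l (ovr ls τ t u) := by
  funext k
  refine Fin.cases ?_ (fun k => ?_) k
  · rw [Fin.cons_zero]
    unfold ovr
    rw [dif_neg (by simp), Fin.cons_zero]
  · rw [Fin.cons_succ]
    unfold ovr
    by_cases h : τ ≤ k.val ∧ k.val < τ + t
    · rw [dif_pos h, dif_pos (by rw [Fin.val_succ]; omega)]
      congr 1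
      apply Fin.ext
      show k.succ.val - (τ + 1) = k.val - τ
      rw [Fin.val_succ]
      omega
    · rw [dif_neg h, dif_neg (by rw [Fin.val_succ]; omega), Fin.cons_succ]

theorem ovr_cons {M : ℕ} (l0 l : Lam) (ls : Fin M → Lam) (t : ℕ) (u : Fin t → Lam) :
    ovr (Fin.cons l0 ls : Fin (M + 1) → Lam) 0 (t + 1) (Fin.cons l u : Fin (t + 1) → Lam) =
      Fin.cons l (ovr ls 0 t u) := by
  funext k
  refine Fin.cases ?_ (fun k => ?_) k
  · rw [Fin.cons_zero]
    unfold ovr
    rw [dif_pos (by simp)]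
    rfl
  · rw [Fin.cons_succ]
    unfold ovr
    by_cases h : 0 ≤ k.val ∧ k.val < 0 + t
    · rw [dif_pos h, dif_pos (by rw [Fin.val_succ]; omega)]
      have h1 : (⟨k.succ.val - 0, by rw [Fin.val_succ]; omega⟩ : Fin (t + 1)) =
          Fin.succ ⟨k.val - 0, by omega⟩ := Fin.ext rfl
      rw [h1, Fin.cons_succ]
    · rw [dif_neg h, dif_neg (by rw [Fin.val_succ]; omega), Fin.cons_succ]

theorem ovr_all {M : ℕ} (ls ls' : Fin M → Lam) (t : ℕ) (u : Fin t → Lam) (k : Fin M)
    (hk : k.val < t) : ovr ls 0 t u k = ovr ls' 0 t u k := by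
  unfold ovr
  rw [dif_pos (by omega), dif_pos (by omega)]

/-- an event with small conditional probability over a free window -/
theorem win (L : Letters X Lam) (m : X → ℝ) (hm : ∀ x, 0 ≤ m x) {θ : ℝ} :
    ∀ (M : ℕ) (S : Fin M → Lam → ℝ), (∀ k, Wt L θ (S k)) → ∀ (τ t : ℕ) (ht : τ + t ≤ M)
      (h : (Fin M → Lam) → ℝ), (∀ ls ls' : Fin M → Lam, (∀ k : Fin M, k.val < τ + t →
        ls k = ls' k) → h ls = h ls') → ∀ (p : ℝ), (∀ ls : Fin M → Lam, ∑ u : Fin t → Lam,
          (∏ i : Fin t, S ⟨τ + i.val, by omega⟩ (u i)) * h (ovr ls τ t u) ≤ p) → ∀ x,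
      ∑ ls, pw L M (mix L m S fun k => decide (τ ≤ k.val ∧ k.val < τ + t)) ls x * h ls ≤ p
  | 0, S, _, τ, t, ht, h, _, p, hp, x => by
    obtain ⟨rfl⟩ : t = 0 := by omega
    rw [Fintype.sum_eq_single (fun k => k.elim0)]
    · have h1 := hp (fun k => k.elim0)
      rw [Fintype.sum_eq_single (fun k => k.elim0)] at h1
      · rw [ovr_zero, Finset.univ_eq_empty (α := Fin 0), prod_empty] at h1
        exact h1
      · intro ls hls
        exact absurd (Subsingleton.elim _ _) hls
    · intro ls hls
      exact absurd (Subsingleton.elim _ _) hls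
  | M + 1, S, hS, τ, t, ht, h, hdep, p, hp, x => by
    have hexp : ∑ ls, pw L (M + 1) (mix L m S fun k => decide (τ ≤ k.val ∧ k.val < τ + t)) ls x *
        h ls = ∑ l, mix L m S (fun k => decide (τ ≤ k.val ∧ k.val < τ + t)) 0 x l *
          ∑ ls' : Fin M → Lam, pw L M (fun k => mix L m S
            (fun k => decide (τ ≤ k.val ∧ k.val < τ + t)) k.succ) ls' (L.act l x) *
              h (Fin.cons l ls') := by
      rw [sum_succ]
      apply sum_congr rfl
      intro l _
      rw [mul_sum]
      apply sum_congr rfl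
      intro ls _
      rw [pw_cons]
      ring
    rcases τ with _ | τ
    · rcases t with _ | t
      · -- the event is constant
        have hc : ∀ ls, h ls = h fun _ => L.e := fun ls => hdep _ _ fun k hk => by omega
        have h1 := hp fun _ => L.e
        rw [Fintype.sum_eq_single (fun k => k.elim0)] at h1
        · rw [ovr_zero, Finset.univ_eq_empty (α := Fin 0), prod_empty, one_mul] at h1
          rw [sum_congr rfl fun ls _ => by rw [hc ls], ← sum_mul, pw_one, one_mul]
          · exact h1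
          · intro k y
            unfold mix
            split_ifs
            · exact (hS k).one
            · exact met_one L m (hS k) y
        · intro ls hls
          exact absurd (Subsingleton.elim _ _) hls
      · -- the first slot is free
        obtain ⟨P, hP⟩ : ∃ P : Lam → ℝ, ∀ l, P l = ∑ u : Fin t → Lam,
            (∏ i : Fin t, S ⟨0 + i.val + 1, by omega⟩ (u i)) *
              h (Fin.cons l (ovr (fun _ => L.e) 0 t u)) := ⟨_, fun _ => rfl⟩
        have hJ : (fun k : Fin M => mix L m S
            (fun k => decide (0 ≤ k.val ∧ k.val < 0 + (t + 1))) k.succ) =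
            mix L m (fun k => S k.succ) fun k => decide (0 ≤ k.val ∧ k.val < 0 + t) := by
          funext k y l
          unfold mix
          have h2 : (0 ≤ k.succ.val ∧ k.succ.val < 0 + (t + 1)) ↔
              (0 ≤ k.val ∧ k.val < 0 + t) := by
            rw [Fin.val_succ]
            omega
          simp only [h2]
        have hin : ∀ l, ∑ ls' : Fin M → Lam, pw L M (fun k => mix L m S
            (fun k => decide (0 ≤ k.val ∧ k.val < 0 + (t + 1))) k.succ) ls' (L.act l x) *
              h (Fin.cons l ls') ≤ P l := by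
          intro l
          rw [hJ]
          apply win L m hm M (fun k => S k.succ) (fun k => hS k.succ) 0 t (by omega)
            (fun ls' => h (Fin.cons l ls'))
          · intro ls ls' hls
            apply hdep
            intro k
            refine Fin.cases ?_ (fun k => ?_) k
            · intro _
              rw [Fin.cons_zero, Fin.cons_zero]
            · intro hk
              rw [Fin.cons_succ, Fin.cons_succ]
              rw [Fin.val_succ] at hk
              exact hls k (by omega)
          · intro ls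
            rw [hP]
            apply le_of_eq
            apply sum_congr rfl
            intro u _
            congr 1
            apply hdep
            intro k
            refine Fin.cases ?_ (fun k => ?_) k
            · intro _
              rw [Fin.cons_zero, Fin.cons_zero]
            · intro hk
              rw [Fin.cons_succ, Fin.cons_succ]
              rw [Fin.val_succ] at hk
              exact ovr_all _ _ t u k (by omega)
        rw [hexp]
        have h1 := hp (Fin.cons L.e fun _ => L.e)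
        rw [sum_succ] at h1
        refine le_trans ?_ h1
        apply sum_le_sum
        intro l _
        have h3 : mix L m S (fun k => decide (0 ≤ k.val ∧ k.val < 0 + (t + 1))) 0 x l = S 0 l := by
          unfold mix
          rw [if_pos (by simp)]
        rw [h3]
        refine (mul_le_mul_of_nonneg_left (hin l) ((hS 0).nn l)).trans (le_of_eq ?_)
        rw [hP, mul_sum]
        apply sum_congr rfl
        intro u _
        rw [ovr_cons, Fin.prod_univ_succ, ← mul_assoc]
        congr 1
    · -- the first slot is a Metropolis slot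
      have hJ : (fun k : Fin M => mix L m S
          (fun k => decide (τ + 1 ≤ k.val ∧ k.val < τ + 1 + t)) k.succ) =
          mix L m (fun k => S k.succ) fun k => decide (τ ≤ k.val ∧ k.val < τ + t) := by
        funext k y l
        unfold mix
        have h2 : (τ + 1 ≤ k.succ.val ∧ k.succ.val < τ + 1 + t) ↔
            (τ ≤ k.val ∧ k.val < τ + t) := by
          rw [Fin.val_succ]
          omega
        simp only [h2]
      have hin : ∀ l, ∑ ls' : Fin M → Lam, pw L M (fun k => mix L m S
          (fun k => decide (τ + 1 ≤ k.val ∧ k.val < τ + 1 + t)) k.succ) ls' (L.act l x) *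
            h (Fin.cons l ls') ≤ p := by
        intro l
        rw [hJ]
        apply win L m hm M (fun k => S k.succ) (fun k => hS k.succ) τ t (by omega)
          (fun ls' => h (Fin.cons l ls'))
        · intro ls ls' hls
          apply hdep
          intro k
          refine Fin.cases ?_ (fun k => ?_) k
          · intro _
            rw [Fin.cons_zero, Fin.cons_zero]
          · intro hk
            rw [Fin.cons_succ, Fin.cons_succ]
            rw [Fin.val_succ] at hk
            exact hls k (by omega)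
        · intro ls
          have h1 := hp (Fin.cons l ls)
          refine le_trans (le_of_eq ?_) h1
          apply sum_congr rfl
          intro u _
          rw [ovr_succ]
          congr 1
          apply prod_congr rfl
          intro i _
          congr 1
          apply Fin.ext
          show τ + i.val + 1 = τ + 1 + i.val
          omega
      rw [hexp]
      have h4 : ∀ l, 0 ≤ mix L m S (fun k => decide (τ + 1 ≤ k.val ∧ k.val < τ + 1 + t)) 0 x l := by
        intro l
        unfold mix
        split_ifs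
        · exact (hS 0).nn l
        · exact met_nn L m hm (hS 0) x l
      have h5 : ∑ l, mix L m S (fun k => decide (τ + 1 ≤ k.val ∧ k.val < τ + 1 + t)) 0 x l = 1 := by
        unfold mix
        split_ifs
        · exact (hS 0).one
        · exact met_one L m (hS 0) x
      calc _ ≤ ∑ l, mix L m S (fun k => decide (τ + 1 ≤ k.val ∧ k.val < τ + 1 + t)) 0 x l * p :=
            sum_le_sum fun l _ => mul_le_mul_of_nonneg_left (hin l) (h4 l)
        _ = p := by rw [← sum_mul, h5, one_mul]

open Classical in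
/-- an event with small conditional probability over a window of free letters has small Metropolis
mass -/
theorem cond (L : Letters X Lam) {θ : ℝ} (hθ : 0 < θ) {M : ℕ} (S : Fin M → Lam → ℝ)
    (hS : ∀ k, Wt L θ (S k)) (v : X → ℝ) (hv : ∀ x, 0 ≤ v x) (hv1 : ∑ x, v x ^ 2 = 1)
    (d : Fin M → ℝ) (hd : ∀ k, ∑ l, S k l * ∑ x, (v x - v (L.act l x)) ^ 2 ≤ d k)
    (τ t : ℕ) (ht : τ + t ≤ M) (E : X → (Fin M → Lam) → Prop)
    (hdep : ∀ x (ls ls' : Fin M → Lam), (∀ k : Fin M, k.val < τ + t → ls k = ls' k) →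
      (E x ls ↔ E x ls')) (p : ℝ)
    (hp : ∀ x (ls : Fin M → Lam), ∑ u : Fin t → Lam with E x (ovr ls τ t u),
      (∏ i : Fin t, S ⟨τ + i.val, by omega⟩ (u i)) ≤ p)
    (c : ℝ) (hc : 0 < c) (hpc : p < c * Real.exp (- ((4 * (1 + 1 / θ) *
      (∑ k : Fin M with τ ≤ k.val ∧ k.val < τ + t, d k) + 1) / c))) :
    ∑ w : X × (Fin M → Lam) with E w.1 w.2,
      v w.1 ^ 2 * pw L M (mets L (fun y => v y ^ 2) S) w.2 w.1 ≤ c := by
  have hm : ∀ x, 0 ≤ (fun y => v y ^ 2) x := fun x => sq_nonneg _
  have hd0 : ∀ k, 0 ≤ d k := fun k => le_trans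
    (sum_nonneg fun l _ => mul_nonneg ((hS k).nn l) (sum_nonneg fun x _ => sq_nonneg _)) (hd k)
  by_contra hcon
  push Not at hcon
  obtain ⟨q, hq⟩ : ∃ q, q = ∑ w : X × (Fin M → Lam) with E w.1 w.2,
      v w.1 ^ 2 * pw L M (mets L (fun y => v y ^ 2) S) w.2 w.1 := ⟨_, rfl⟩
  rw [← hq] at hcon
  have h1 := compare L hθ S hS v hv hv1 d hd (fun k => decide (τ ≤ k.val ∧ k.val < τ + t))
    (univ.filter fun w : X × (Fin M → Lam) => E w.1 w.2) (by rw [← hq]; linarith)
  rw [← hq] at h1
  have hD : (∑ k : Fin M, if decide (τ ≤ k.val ∧ k.val < τ + t) = true then d k else 0) =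
      ∑ k : Fin M with τ ≤ k.val ∧ k.val < τ + t, d k := by
    rw [sum_filter]
    apply sum_congr rfl
    intro k _
    simp only [decide_eq_true_eq]
  rw [hD] at h1
  obtain ⟨D, hDe⟩ : ∃ D, D = 4 * (1 + 1 / θ) *
      (∑ k : Fin M with τ ≤ k.val ∧ k.val < τ + t, d k) := ⟨_, rfl⟩
  rw [← hDe] at h1 hpc
  have hD0 : 0 ≤ D := by
    rw [hDe]
    exact mul_nonneg (by positivity) (sum_nonneg fun k _ => hd0 k)
  have h2 : ∑ w : X × (Fin M → Lam) with E w.1 w.2, v w.1 ^ 2 *
      pw L M (mix L (fun y => v y ^ 2) S fun k => decide (τ ≤ k.val ∧ k.val < τ + t)) w.2 w.1 ≤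
      p := by
    rw [sum_filter, Fintype.sum_prod_type]
    calc ∑ x, ∑ ls : Fin M → Lam, (if E x ls then v x ^ 2 * pw L M (mix L (fun y => v y ^ 2) S
          fun k => decide (τ ≤ k.val ∧ k.val < τ + t)) ls x else 0)
        = ∑ x, v x ^ 2 * ∑ ls : Fin M → Lam, pw L M (mix L (fun y => v y ^ 2) S
          fun k => decide (τ ≤ k.val ∧ k.val < τ + t)) ls x * (if E x ls then 1 else 0) := by
          apply sum_congr rfl
          intro x _
          rw [mul_sum]
          apply sum_congr rfl
          intro ls _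
          split_ifs <;> ring
      _ ≤ ∑ x, v x ^ 2 * p := by
          apply sum_le_sum
          intro x _
          apply mul_le_mul_of_nonneg_left _ (sq_nonneg _)
          apply win L (fun y => v y ^ 2) hm M S hS τ t ht (fun ls => if E x ls then 1 else 0)
          · intro ls ls' h
            by_cases h5 : E x ls
            · rw [if_pos h5, if_pos ((hdep x ls ls' h).1 h5)]
            · rw [if_neg h5, if_neg fun h6 => h5 ((hdep x ls ls' h).2 h6)]
          · intro ls
            have h3 := hp x ls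
            rw [sum_filter] at h3
            refine le_trans (le_of_eq ?_) h3
            apply sum_congr rfl
            intro u _
            split_ifs <;> ring
      _ = p := by rw [← sum_mul, hv1, one_mul]
  have h3 : c * Real.exp (- ((D + 1) / c)) ≤ q * Real.exp (- ((D + 1) / q)) := by
    apply mul_le_mul hcon.le _ (Real.exp_pos _).le (by linarith)
    apply Real.exp_le_exp.2
    apply neg_le_neg
    exact div_le_div_of_nonneg_left (by linarith) hc hcon.le
  linarith

open Classical in
/-- Markov's inequality for the number of events -/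
theorem many (L : Letters X Lam) {θ : ℝ} {M : ℕ} (S : Fin M → Lam → ℝ)
    (hS : ∀ k, Wt L θ (S k)) (v : X → ℝ) {ι : Type*} (I : Finset ι)
    (E : ι → X → (Fin M → Lam) → Prop) (c : ℝ)
    (hE : ∀ i ∈ I, ∑ w : X × (Fin M → Lam) with E i w.1 w.2,
      v w.1 ^ 2 * pw L M (mets L (fun y => v y ^ 2) S) w.2 w.1 ≤ c) (a : ℝ) (ha : 0 < a) :
    ∑ w : X × (Fin M → Lam) with a ≤ #{i ∈ I | E i w.1 w.2},
      v w.1 ^ 2 * pw L M (mets L (fun y => v y ^ 2) S) w.2 w.1 ≤ c * #I / a := by
  have hm : ∀ x, 0 ≤ (fun y => v y ^ 2) x := fun x => sq_nonneg _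
  obtain ⟨Q, hQ⟩ : ∃ Q : X × (Fin M → Lam) → ℝ, ∀ w, v w.1 ^ 2 *
      pw L M (mets L (fun y => v y ^ 2) S) w.2 w.1 = Q w := ⟨_, fun _ => rfl⟩
  have hQ0 : ∀ w, 0 ≤ Q w := fun w => by
    rw [← hQ]
    exact mul_nonneg (sq_nonneg _) (pw_nn L M _ _ _ fun k x l => met_nn L _ hm (hS k) x l)
  simp only [hQ] at hE ⊢
  rw [le_div_iff₀ ha, sum_mul]
  calc ∑ w : X × (Fin M → Lam) with a ≤ #{i ∈ I | E i w.1 w.2}, Q w * a
      ≤ ∑ w : X × (Fin M → Lam) with a ≤ #{i ∈ I | E i w.1 w.2},
          Q w * #{i ∈ I | E i w.1 w.2} := by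
        apply sum_le_sum
        intro w hw
        rw [mem_filter] at hw
        exact mul_le_mul_of_nonneg_left hw.2 (hQ0 w)
    _ ≤ ∑ w : X × (Fin M → Lam), Q w * #{i ∈ I | E i w.1 w.2} :=
        sum_le_sum_of_subset_of_nonneg (subset_univ _) fun w _ _ =>
          mul_nonneg (hQ0 w) (Nat.cast_nonneg _)
    _ = ∑ w : X × (Fin M → Lam), ∑ i ∈ I, (if E i w.1 w.2 then Q w else 0) := by
        apply sum_congr rfl
        intro w _
        rw [← sum_filter, sum_const, nsmul_eq_mul, mul_comm]
    _ = ∑ i ∈ I, ∑ w : X × (Fin M → Lam) with E i w.1 w.2, Q w := by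
        rw [sum_comm]
        apply sum_congr rfl
        intro i _
        rw [sum_filter]
    _ ≤ ∑ i ∈ I, c := sum_le_sum hE
    _ = c * #I := by rw [sum_const, nsmul_eq_mul, mul_comm]

open Classical in
/-- the Metropolis mass of a set of bad patterns of the slots `J` -/
theorem bad_mass (L : Letters X Lam) {θ : ℝ} (hθ : 0 < θ) {M : ℕ} (S : Fin M → Lam → ℝ)
    (hS : ∀ k, Wt L θ (S k)) (v : X → ℝ) (hv : ∀ x, 0 ≤ v x) (hv1 : ∑ x, v x ^ 2 = 1)
    (d : Fin M → ℝ) (hd : ∀ k, ∑ l, S k l * ∑ x, (v x - v (L.act l x)) ^ 2 ≤ d k)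
    (J : Fin M → Bool) (Bad : (Fin M → Lam) → Prop)
    (hBad : ∀ ls ls' : Fin M → Lam, (∀ k, J k = true → ls k = ls' k) → (Bad ls ↔ Bad ls'))
    (hb : ∑ ls : Fin M → Lam with Bad ls, ∏ k, S k (ls k) ≤
      Real.exp (- (4 * (4 * (1 + 1 / θ) * (∑ k, if J k then d k else 0) + 2)))) :
    ∑ w : X × (Fin M → Lam) with Bad w.2,
      v w.1 ^ 2 * pw L M (mets L (fun y => v y ^ 2) S) w.2 w.1 ≤ 1 / 4 := by
  have hd0 : ∀ k, 0 ≤ d k := fun k => le_trans
    (sum_nonneg fun l _ => mul_nonneg ((hS k).nn l) (sum_nonneg fun x _ => sq_nonneg _)) (hd k)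
  by_contra hcon
  push Not at hcon
  obtain ⟨q, hq⟩ : ∃ q, q = ∑ w : X × (Fin M → Lam) with Bad w.2,
      v w.1 ^ 2 * pw L M (mets L (fun y => v y ^ 2) S) w.2 w.1 := ⟨_, rfl⟩
  rw [← hq] at hcon
  have h1 := compare L hθ S hS v hv hv1 d hd J (univ.filter fun w : X × (Fin M → Lam) =>
    Bad w.2) (by rw [← hq]; linarith)
  rw [← hq] at h1
  obtain ⟨D, hD⟩ : ∃ D, D = 4 * (1 + 1 / θ) * (∑ k, if J k then d k else 0) := ⟨_, rfl⟩
  have hD0 : 0 ≤ D := by
    rw [hD]
    apply mul_nonneg (by positivity)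
    apply sum_nonneg
    intro k _
    split_ifs
    · exact hd0 k
    · exact le_rfl
  rw [← hD] at h1 hb
  have h2 : ∑ w : X × (Fin M → Lam) with Bad w.2, v w.1 ^ 2 *
      pw L M (mix L (fun y => v y ^ 2) S J) w.2 w.1 =
      ∑ ls : Fin M → Lam with Bad ls, ∏ k, S k (ls k) := by
    rw [sum_filter, Fintype.sum_prod_type]
    have h3 : ∀ x, ∑ ls : Fin M → Lam, (if Bad ls then v x ^ 2 *
        pw L M (mix L (fun y => v y ^ 2) S J) ls x else 0) = v x ^ 2 *
        ∑ ls : Fin M → Lam with Bad ls, ∏ k, S k (ls k) := by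
      intro x
      have h4 := path_pat L (fun y => v y ^ 2) M S hS J (fun ls => if Bad ls then 1 else 0)
        (fun ls ls' h => by
          by_cases h5 : Bad ls
          · rw [if_pos h5, if_pos ((hBad ls ls' h).1 h5)]
          · rw [if_neg h5, if_neg fun h6 => h5 ((hBad ls ls' h).2 h6)]) x
      rw [sum_filter]
      calc ∑ ls : Fin M → Lam, (if Bad ls then v x ^ 2 *
            pw L M (mix L (fun y => v y ^ 2) S J) ls x else 0) =
            v x ^ 2 * ∑ ls : Fin M → Lam, pw L M (mix L (fun y => v y ^ 2) S J) ls x *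
              (if Bad ls then 1 else 0) := by
            rw [mul_sum]
            apply sum_congr rfl
            intro ls _
            split_ifs <;> ring
        _ = _ := by
            rw [h4]
            congr 1
            apply sum_congr rfl
            intro ls _
            split_ifs <;> ring
    rw [sum_congr rfl fun x _ => h3 x, ← sum_mul, hv1, one_mul]
  rw [h2] at h1
  have h3 := h1.trans hb
  have hq0 : 0 < q := by linarith
  have h4 : (D + 1) / q ≤ 4 * (D + 1) := by
    rw [div_le_iff₀ hq0]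
    nlinarith
  have h5 : 1 / 4 * Real.exp (- (4 * (D + 1))) < q * Real.exp (- ((D + 1) / q)) := by
    calc 1 / 4 * Real.exp (- (4 * (D + 1))) < q * Real.exp (- (4 * (D + 1))) :=
          mul_lt_mul_of_pos_right hcon (Real.exp_pos _)
      _ ≤ q * Real.exp (- ((D + 1) / q)) :=
          mul_le_mul_of_nonneg_left (Real.exp_le_exp.2 (by linarith)) hq0.le
  have h6 : Real.exp (- (4 * (D + 2))) = Real.exp (- 4) * Real.exp (- (4 * (D + 1))) := by
    rw [← Real.exp_add]
    congr 1
    ring
  have h7 : Real.exp (- 4) ≤ 1 / 4 := by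
    rw [Real.exp_neg, ← one_div]
    apply one_div_le_one_div_of_le (by norm_num)
    linarith [Real.add_one_le_exp (4 : ℝ)]
  have h8 := mul_le_mul_of_nonneg_right h7 (Real.exp_pos (- (4 * (D + 1)))).le
  rw [h6] at h3
  linarith

open Classical in
/-- The main theorem with a path event `G` of Metropolis mass `≥ 7 / 8`. -/
theorem metropolisG (L : Letters X Lam) {θ : ℝ} (hθ : 0 < θ) {M : ℕ} (S : Fin M → Lam → ℝ)
    (hS : ∀ k, Wt L θ (S k)) (v : X → ℝ) (hv : ∀ x, 0 ≤ v x) (hv1 : ∑ x, v x ^ 2 = 1)
    (d : Fin M → ℝ) (hd : ∀ k, ∑ l, S k l * ∑ x, (v x - v (L.act l x)) ^ 2 ≤ d k)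
    (J : Fin M → Bool) (Bad : (Fin M → Lam) → Prop)
    (hBad : ∀ ls ls' : Fin M → Lam, (∀ k, J k = true → ls k = ls' k) → (Bad ls ↔ Bad ls'))
    (A : X → Prop) (hA : 3 / 4 ≤ ∑ x with A x, v x ^ 2)
    (hb : ∑ ls : Fin M → Lam with Bad ls, ∏ k, S k (ls k) ≤
      Real.exp (- (4 * (4 * (1 + 1 / θ) * (∑ k, if J k then d k else 0) + 2))))
    (G : X → (Fin M → Lam) → Prop)
    (hG : ∑ w : X × (Fin M → Lam) with ¬ G w.1 w.2,
      v w.1 ^ 2 * pw L M (mets L (fun y => v y ^ 2) S) w.2 w.1 ≤ 1 / 8) :
    1 / 4 * Real.exp (- (4 * (4 * (1 + 1 / θ) * ∑ k, d k + 1))) ≤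
      ∑ x with A x, v x ^ 2 * ∑ ls : Fin M → Lam with
        (¬ Bad ls ∧ G x ls ∧ 0 < v (pos L M ls x)), ∏ k, S k (ls k) := by
  have hm : ∀ x, 0 ≤ (fun y => v y ^ 2) x := fun x => sq_nonneg _
  have hmets : ∀ k x l, 0 ≤ mets L (fun y => v y ^ 2) S k x l :=
    fun k x l => met_nn L _ hm (hS k) x l
  have hd0 : ∀ k, 0 ≤ d k := fun k => le_trans
    (sum_nonneg fun l _ => mul_nonneg ((hS k).nn l) (sum_nonneg fun x _ => sq_nonneg _)) (hd k)
  have hbad := bad_mass L hθ S hS v hv hv1 d hd J Bad hBad hb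
  obtain ⟨Q, hQ⟩ : ∃ Q : X × (Fin M → Lam) → ℝ, ∀ w, Q w =
      v w.1 ^ 2 * pw L M (mets L (fun y => v y ^ 2) S) w.2 w.1 := ⟨_, fun _ => rfl⟩
  have hQ0 : ∀ w, 0 ≤ Q w := fun w => by
    rw [hQ]
    exact mul_nonneg (sq_nonneg _) (pw_nn L M _ _ _ hmets)
  have hQx : ∀ x, ∑ ls, Q (x, ls) = v x ^ 2 := by
    intro x
    calc ∑ ls, Q (x, ls) = ∑ ls, v x ^ 2 * pw L M (mets L (fun y => v y ^ 2) S) ls x :=
          sum_congr rfl fun ls _ => hQ (x, ls)
      _ = v x ^ 2 := by
          rw [← mul_sum, pw_one L M (mets L (fun y => v y ^ 2) S) x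
            fun k x => met_one L _ (hS k) x, mul_one]
  rw [← sum_congr rfl fun w _ => hQ w] at hbad hG
  -- the good event
  obtain ⟨E, hE⟩ : ∃ E : Finset (X × (Fin M → Lam)), E = univ.filter fun w =>
      A w.1 ∧ ¬ Bad w.2 ∧ G w.1 w.2 ∧ 0 < v (pos L M w.2 w.1) := ⟨_, rfl⟩
  have hgood : 3 / 8 ≤ ∑ w ∈ E, Q w := by
    have h1 : ∑ w with A w.1, Q w = ∑ x with A x, v x ^ 2 := by
      rw [sum_filter, Fintype.sum_prod_type, sum_filter]
      apply sum_congr rfl
      intro x _
      by_cases h : A x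
      · simp only [h, if_true]
        exact hQx x
      · simp only [h, if_false]
        exact sum_const_zero
    have h2 : ∑ w with A w.1, Q w ≤ ∑ w ∈ E, Q w + ∑ w with Bad w.2, Q w +
        ∑ w with ¬ G w.1 w.2, Q w := by
      rw [hE, sum_filter, sum_filter, sum_filter, sum_filter, ← sum_add_distrib,
        ← sum_add_distrib]
      apply sum_le_sum
      intro w _
      have hQw := hQ0 w
      by_cases h3 : A w.1
      · by_cases h4 : Bad w.2
        · rw [if_pos h3, if_neg fun h5 => h5.2.1 h4, if_pos h4]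
          split_ifs <;> linarith
        · by_cases h5 : G w.1 w.2
          · rw [if_pos h3, if_neg h4, if_neg (not_not.2 h5), add_zero, add_zero]
            by_cases h6 : 0 < v (pos L M w.2 w.1)
            · rw [if_pos ⟨h3, h4, h5, h6⟩]
            · rw [if_neg fun h7 => h6 h7.2.2.2]
              refine le_of_eq ?_
              by_contra h7
              have h8 : Q w ≠ 0 := h7
              rw [hQ] at h8
              have h9 : 0 < v w.1 ^ 2 := (sq_nonneg _).lt_of_ne (left_ne_zero_of_mul h8).symm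
              have h10 := path_supp L (fun y => v y ^ 2) hm M S w.2 w.1 h9
                (right_ne_zero_of_mul h8)
              have h11 : v (pos L M w.2 w.1) ≠ 0 := fun h12 => by
                simp only [h12] at h10
                norm_num at h10
              exact h6 ((hv _).lt_of_ne h11.symm)
          · rw [if_pos h3, if_neg fun h6 => h5 h6.2.2.1, if_neg h4, if_pos h5]
            linarith
      · rw [if_neg h3]
        split_ifs <;> linarith
    rw [h1] at h2
    linarith
  have h1 := compare L hθ S hS v hv hv1 d hd (fun _ => true) E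
    (by rw [← sum_congr rfl fun w _ => hQ w]; linarith)
  rw [← sum_congr rfl fun w _ => hQ w] at h1
  obtain ⟨q, hq⟩ : ∃ q, q = ∑ w ∈ E, Q w := ⟨_, rfl⟩
  obtain ⟨D, hD⟩ : ∃ D, D = 4 * (1 + 1 / θ) * ∑ k, d k := ⟨_, rfl⟩
  have hD0 : 0 ≤ D := by
    rw [hD]
    exact mul_nonneg (by positivity) (sum_nonneg fun k _ => hd0 k)
  simp only [if_true] at h1
  rw [← hq, ← hD] at h1
  rw [← hq] at hgood
  rw [← hD]
  have hq0 : 0 < q := by linarith
  have h2 : ∑ w ∈ E, v w.1 ^ 2 * pw L M (mix L (fun y => v y ^ 2) S fun _ => true) w.2 w.1 =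
      ∑ x with A x, v x ^ 2 * ∑ ls : Fin M → Lam with
        (¬ Bad ls ∧ G x ls ∧ 0 < v (pos L M ls x)), ∏ k, S k (ls k) := by
    rw [hE, sum_filter, Fintype.sum_prod_type, sum_filter]
    apply sum_congr rfl
    intro x _
    have h3 : ∀ ls, pw L M (mix L (fun y => v y ^ 2) S fun _ => true) ls x =
        ∏ k, S k (ls k) := fun ls => by
      rw [← pw_free L M S ls x]
      congr 1
    by_cases h : A x
    · simp only [h, true_and, if_true]
      rw [mul_sum, sum_filter]
      apply sum_congr rfl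
      intro ls _
      rw [h3]
    · simp only [h, false_and, if_false]
      exact sum_const_zero
  rw [h2] at h1
  refine le_trans ?_ h1
  have h4 : (D + 1) / q ≤ 4 * (D + 1) := by
    rw [div_le_iff₀ hq0]
    nlinarith
  calc 1 / 4 * Real.exp (- (4 * (D + 1))) ≤ q * Real.exp (- (4 * (D + 1))) :=
        mul_le_mul_of_nonneg_right (by linarith) (Real.exp_pos _).le
    _ ≤ q * Real.exp (- ((D + 1) / q)) :=
        mul_le_mul_of_nonneg_left (Real.exp_le_exp.2 (by linarith)) hq0.le

open Classical in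
/-- If `¬ G` forces at least `8 c N` of the events `E i` (`i < N`), each decided before the slot
`τ i + t` with conditional probability `≤ p` over the free letters of the slots
`τ i ≤ k < τ i + t`, then the Metropolis mass of `¬ G` is `≤ 1 / 8` for every near-invariant `v`. -/
theorem freshG (L : Letters X Lam) {θ : ℝ} (hθ : 0 < θ) {M : ℕ} (S : Fin M → Lam → ℝ)
    (hS : ∀ k, Wt L θ (S k)) {N : ℕ} (hN : 0 < N) (τ : Fin N → ℕ) (t : ℕ)
    (ht : ∀ i, τ i + t ≤ M) (E : Fin N → X → (Fin M → Lam) → Prop)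
    (hdep : ∀ i x (ls ls' : Fin M → Lam), (∀ k : Fin M, k.val < τ i + t → ls k = ls' k) →
      (E i x ls ↔ E i x ls')) (p : ℝ)
    (hp : ∀ i x (ls : Fin M → Lam), ∑ u : Fin t → Lam with E i x (ovr ls (τ i) t u),
      (∏ j : Fin t, S ⟨τ i + j.val, by have := ht i; omega⟩ (u j)) ≤ p)
    (c : ℝ) (hc : 0 < c) (B : ℝ) (hpc : p < c * Real.exp (- ((4 * (1 + 1 / θ) *
      (t * B) + 1) / c)))
    (G : X → (Fin M → Lam) → Prop) [∀ x, DecidablePred (G x)]
    (hG : ∀ x ls, ¬ G x ls → 8 * c * N ≤ #{i | E i x ls}) :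
    ∀ v : X → ℝ, (∀ x, 0 ≤ v x) → ∑ x, v x ^ 2 = 1 →
      (∀ k, ∑ l, S k l * ∑ x, (v x - v (L.act l x)) ^ 2 ≤ B) →
      ∑ x, ∑ ls : Fin M → Lam with ¬ G x ls,
        v x ^ 2 * pw L M (mets L (fun y => v y ^ 2) S) ls x ≤ 1 / 8 := by
  intro v hv hv1 hd
  have hm : ∀ x, 0 ≤ (fun y => v y ^ 2) x := fun x => sq_nonneg _
  have hQ0 : ∀ w : X × (Fin M → Lam), 0 ≤ v w.1 ^ 2 *
      pw L M (mets L (fun y => v y ^ 2) S) w.2 w.1 := fun w =>
    mul_nonneg (sq_nonneg _) (pw_nn L M _ _ _ fun k x l => met_nn L _ hm (hS k) x l)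
  have hB0 : ∀ k : Fin M, 0 ≤ B := fun k => le_trans
    (sum_nonneg fun l _ => mul_nonneg ((hS k).nn l) (sum_nonneg fun x _ => sq_nonneg _)) (hd k)
  have hE : ∀ i ∈ (univ : Finset (Fin N)), ∑ w : X × (Fin M → Lam) with E i w.1 w.2,
      v w.1 ^ 2 * pw L M (mets L (fun y => v y ^ 2) S) w.2 w.1 ≤ c := by
    intro i _
    apply cond L hθ S hS v hv hv1 (fun _ => B) hd (τ i) t (ht i) (E i) (hdep i) p (hp i) c hc
    refine lt_of_lt_of_le hpc ?_
    apply mul_le_mul_of_nonneg_left _ hc.le
    apply Real.exp_le_exp.2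
    apply neg_le_neg
    apply div_le_div_of_nonneg_right _ hc.le
    have h1 : ∑ k : Fin M with τ i ≤ k.val ∧ k.val < τ i + t, B ≤ t * B := by
      rw [sum_const, nsmul_eq_mul]
      rcases t with _ | t
      · have h2 : ({k : Fin M | τ i ≤ k.val ∧ k.val < τ i + 0} : Finset (Fin M)) = ∅ := by
          rw [filter_eq_empty_iff]
          intro k _
          omega
        rw [h2]
        simp
      · have hB := hB0 ⟨τ i, by have := ht i; omega⟩
        apply mul_le_mul_of_nonneg_right _ hB
        have h2 : #({k : Fin M | τ i ≤ k.val ∧ k.val < τ i + (t + 1)} : Finset (Fin M)) ≤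
            #(Ico (τ i) (τ i + (t + 1))) := by
          apply card_le_card_of_injOn (fun k : Fin M => k.val)
          · intro k hk
            rw [mem_coe, mem_filter] at hk
            rw [mem_coe, mem_Ico]
            exact hk.2
          · intro a _ b _ h
            exact Fin.ext h
        rw [Nat.card_Ico] at h2
        have h3 : #({k : Fin M | τ i ≤ k.val ∧ k.val < τ i + (t + 1)} : Finset (Fin M)) ≤
            t + 1 := by omega
        exact_mod_cast h3
    have h2 : 0 ≤ 4 * (1 + 1 / θ) := by positivity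
    nlinarith [mul_le_mul_of_nonneg_left h1 h2]
  have hNr : (0 : ℝ) < N := by exact_mod_cast hN
  have h1 := many L S hS v univ E c hE (8 * c * N) (by positivity)
  have h2 : c * #(univ : Finset (Fin N)) / (8 * c * N) = 1 / 8 := by
    rw [card_univ, Fintype.card_fin]
    field_simp
  rw [h2] at h1
  refine le_trans ?_ h1
  calc ∑ x, ∑ ls : Fin M → Lam with ¬ G x ls,
        v x ^ 2 * pw L M (mets L (fun y => v y ^ 2) S) ls x
      = ∑ w : X × (Fin M → Lam) with ¬ G w.1 w.2,
        v w.1 ^ 2 * pw L M (mets L (fun y => v y ^ 2) S) w.2 w.1 := by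
        rw [sum_filter, Fintype.sum_prod_type]
        apply sum_congr rfl
        intro x _
        rw [sum_filter]
    _ ≤ _ := by
        apply sum_le_sum_of_subset_of_nonneg
        · intro w hw
          rw [mem_filter] at hw ⊢
          exact ⟨mem_univ _, hG w.1 w.2 hw.2⟩
        · intro w _ _
          exact hQ0 w

end Pool.Agent.Helper35.MP
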