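import Pool.Agent.Helper35.MP.Path

/-!
# The Metropolis chain: the main theorem
-/

set_option autoImplicit false
set_option linter.unusedSectionVars false

namespace Pool.Agent.Helper35.MP

open Finset

variable {X Lam : Type*} [Fintype X] [Fintype Lam] [DecidableEq Lam]

theorem acc_sq (L : Letters X Lam) (v : X → ℝ) (hv : ∀ x, 0 ≤ v x) (x : X) (l : Lam) :
    v x ^ 2 * (1 - acc L (fun y => v y ^ 2) x l) ^ 2 ≤ 4 * (v x - v (L.act l x)) ^ 2 := by
  unfold acc
  split_ifs with h
  · simp only [sub_self, ne_eq, OfNat.ofNat_ne_zero, not_false_eq_true, zero_pow, mul_zero]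
    positivity
  · push Not at h
    have h1 : v (L.act l x) < v x := lt_of_pow_lt_pow_left₀ 2 (hv x) h
    have h2 : 0 < v x := lt_of_le_of_lt (hv _) h1
    have h3 : v x ^ 2 * (1 - v (L.act l x) ^ 2 / v x ^ 2) ^ 2 =
        (v x - v (L.act l x)) ^ 2 * ((v x + v (L.act l x)) ^ 2 / v x ^ 2) := by
      field_simp
      ring
    rw [h3, mul_comm]
    apply mul_le_mul_of_nonneg_right _ (sq_nonneg _)
    rw [div_le_iff₀ (by positivity)]
    nlinarith [hv (L.act l x)]

theorem kl_le (L : Letters X Lam) {θ : ℝ} (hθ : 0 < θ) (S : Lam → ℝ) (hS : Wt L θ S)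
    (v : X → ℝ) (hv : ∀ x, 0 ≤ v x) :
    ∑ x, v x ^ 2 * ∑ l, met L (fun y => v y ^ 2) S x l *
        Real.log (met L (fun y => v y ^ 2) S x l / S l) ≤
      4 * (1 + 1 / θ) * ∑ l, S l * ∑ x, (v x - v (L.act l x)) ^ 2 := by
  have h0 : 0 ≤ 1 + 1 / θ := by positivity
  calc ∑ x, v x ^ 2 * ∑ l, met L (fun y => v y ^ 2) S x l *
        Real.log (met L (fun y => v y ^ 2) S x l / S l) ≤
        ∑ x, v x ^ 2 * ((1 + 1 / θ) * ∑ l, S l * (1 - acc L (fun y => v y ^ 2) x l) ^ 2) :=
        sum_le_sum fun x _ => mul_le_mul_of_nonneg_left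
          (met_kl L _ (fun y => sq_nonneg _) hθ hS x) (sq_nonneg _)
    _ = (1 + 1 / θ) * ∑ x, ∑ l, S l * (v x ^ 2 * (1 - acc L (fun y => v y ^ 2) x l) ^ 2) := by
        rw [mul_sum]
        apply sum_congr rfl
        intro x _
        rw [← mul_assoc, mul_comm (v x ^ 2), mul_assoc, mul_sum]
        congr 1
        exact sum_congr rfl fun l _ => by ring
    _ ≤ (1 + 1 / θ) * ∑ x, ∑ l, S l * (4 * (v x - v (L.act l x)) ^ 2) := by
        apply mul_le_mul_of_nonneg_left _ h0
        exact sum_le_sum fun x _ => sum_le_sum fun l _ =>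
          mul_le_mul_of_nonneg_left (acc_sq L v hv x l) (hS.nn l)
    _ = 4 * (1 + 1 / θ) * ∑ l, S l * ∑ x, (v x - v (L.act l x)) ^ 2 := by
        rw [sum_comm, mul_comm (4 : ℝ), mul_assoc]
        congr 1
        rw [mul_sum]
        apply sum_congr rfl
        intro l _
        rw [mul_sum, mul_sum]
        exact sum_congr rfl fun x _ => by ring

/-- comparison of the Metropolis chain with the chain which is free in the slots `J` -/
theorem compare (L : Letters X Lam) {θ : ℝ} (hθ : 0 < θ) {M : ℕ} (S : Fin M → Lam → ℝ)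
    (hS : ∀ k, Wt L θ (S k)) (v : X → ℝ) (hv : ∀ x, 0 ≤ v x) (hv1 : ∑ x, v x ^ 2 = 1)
    (d : Fin M → ℝ) (hd : ∀ k, ∑ l, S k l * ∑ x, (v x - v (L.act l x)) ^ 2 ≤ d k)
    (J : Fin M → Bool) [DecidableEq X] (E : Finset (X × (Fin M → Lam)))
    (hq : 0 < ∑ w ∈ E, v w.1 ^ 2 * pw L M (mets L (fun y => v y ^ 2) S) w.2 w.1) :
    (∑ w ∈ E, v w.1 ^ 2 * pw L M (mets L (fun y => v y ^ 2) S) w.2 w.1) *
      Real.exp (- ((4 * (1 + 1 / θ) * (∑ k, if J k then d k else 0) + 1) /
        ∑ w ∈ E, v w.1 ^ 2 * pw L M (mets L (fun y => v y ^ 2) S) w.2 w.1)) ≤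
      ∑ w ∈ E, v w.1 ^ 2 * pw L M (mix L (fun y => v y ^ 2) S J) w.2 w.1 := by
  have hm : ∀ x, 0 ≤ (fun y => v y ^ 2) x := fun x => sq_nonneg _
  have hmets : ∀ k x l, 0 ≤ mets L (fun y => v y ^ 2) S k x l :=
    fun k x l => met_nn L _ hm (hS k) x l
  have hmix : ∀ k x l, 0 ≤ mix L (fun y => v y ^ 2) S J k x l := by
    intro k x l
    unfold mix
    split_ifs
    · exact (hS k).nn l
    · exact met_nn L _ hm (hS k) x l
  have hmix1 : ∀ k x, ∑ l, mix L (fun y => v y ^ 2) S J k x l = 1 := by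
    intro k x
    unfold mix
    split_ifs
    · exact (hS k).one
    · exact met_one L _ (hS k) x
  apply jensen (fun w : X × (Fin M → Lam) => v w.1 ^ 2 * pw L M (mets L (fun y => v y ^ 2) S)
    w.2 w.1) (fun w => v w.1 ^ 2 * pw L M (mix L (fun y => v y ^ 2) S J) w.2 w.1)
    (fun w => ps L M (lt L (fun y => v y ^ 2) S J) w.2 w.1)
  · intro w
    exact mul_nonneg (sq_nonneg _) (pw_nn L M _ _ _ hmets)
  · intro w
    exact mul_nonneg (sq_nonneg _) (pw_nn L M _ _ _ hmix)
  · intro w
    show v w.1 ^ 2 * _ * _ ≤ _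
    rw [mul_assoc]
    exact mul_le_mul_of_nonneg_left (path_le L _ hm hθ M S hS J w.2 w.1) (sq_nonneg _)
  · rw [Fintype.sum_prod_type]
    refine le_of_eq ?_
    rw [← hv1]
    apply sum_congr rfl
    intro x _
    show ∑ ls, v x ^ 2 * pw L M (mix L (fun y => v y ^ 2) S J) ls x = _
    rw [← mul_sum, pw_one L M _ x hmix1, mul_one]
  · rw [Fintype.sum_prod_type]
    have h1 := path_exp L (fun y => v y ^ 2) hm M S hS (lt L (fun y => v y ^ 2) S J)
    have h2 : ∑ x, ∑ ls, v x ^ 2 * pw L M (mets L (fun y => v y ^ 2) S) ls x *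
        ps L M (lt L (fun y => v y ^ 2) S J) ls x = ∑ k, ∑ x, v x ^ 2 *
          ∑ l, met L (fun y => v y ^ 2) (S k) x l * lt L (fun y => v y ^ 2) S J k x l := by
      rw [← h1]
      apply sum_congr rfl
      intro x _
      rw [mul_sum]
      exact sum_congr rfl fun ls _ => by ring
    show ∑ x, ∑ ls, v x ^ 2 * pw L M (mets L (fun y => v y ^ 2) S) ls x *
        ps L M (lt L (fun y => v y ^ 2) S J) ls x ≤ _
    rw [h2, mul_sum]
    apply sum_le_sum
    intro k _
    unfold lt
    split_ifs with hJ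
    · refine (kl_le L hθ (S k) (hS k) v hv).trans ?_
      exact mul_le_mul_of_nonneg_left (hd k) (by positivity)
    · simp
  · exact hq

/-- The main theorem: a near-invariant `v` (errors `d k`), a start set `A` of mass `≥ 3 / 4`, a set
`Bad` of patterns of the slots `J` with very small independent probability. -/
theorem metropolis (L : Letters X Lam) {θ : ℝ} (hθ : 0 < θ) {M : ℕ} (S : Fin M → Lam → ℝ)
    (hS : ∀ k, Wt L θ (S k)) (v : X → ℝ) (hv : ∀ x, 0 ≤ v x) (hv1 : ∑ x, v x ^ 2 = 1)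
    (d : Fin M → ℝ) (hd : ∀ k, ∑ l, S k l * ∑ x, (v x - v (L.act l x)) ^ 2 ≤ d k)
    (J : Fin M → Bool) (Bad : (Fin M → Lam) → Prop) [DecidablePred Bad]
    (hBad : ∀ ls ls' : Fin M → Lam, (∀ k, J k = true → ls k = ls' k) → (Bad ls ↔ Bad ls'))
    (A : X → Prop) [DecidablePred A] (hA : 3 / 4 ≤ ∑ x with A x, v x ^ 2)
    (hb : ∑ ls : Fin M → Lam with Bad ls, ∏ k, S k (ls k) ≤
      Real.exp (- (4 * (4 * (1 + 1 / θ) * (∑ k, if J k then d k else 0) + 2)))) :
    1 / 2 * Real.exp (- (2 * (4 * (1 + 1 / θ) * ∑ k, d k + 1))) ≤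
      ∑ x with A x, v x ^ 2 * ∑ ls : Fin M → Lam with (¬ Bad ls ∧ 0 < v (pos L M ls x)),
        ∏ k, S k (ls k) := by
  classical
  have hm : ∀ x, 0 ≤ (fun y => v y ^ 2) x := fun x => sq_nonneg _
  have hmets : ∀ k x l, 0 ≤ mets L (fun y => v y ^ 2) S k x l :=
    fun k x l => met_nn L _ hm (hS k) x l
  have hd0 : ∀ k, 0 ≤ d k := fun k => le_trans
    (sum_nonneg fun l _ => mul_nonneg ((hS k).nn l) (sum_nonneg fun x _ => sq_nonneg _)) (hd k)
  obtain ⟨Q, hQ⟩ : ∃ Q : X × (Fin M → Lam) → ℝ, ∀ w, Q w =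
      v w.1 ^ 2 * pw L M (mets L (fun y => v y ^ 2) S) w.2 w.1 := ⟨_, fun _ => rfl⟩
  have hQ0 : ∀ w, 0 ≤ Q w := fun w => by
    rw [hQ]
    exact mul_nonneg (sq_nonneg _) (pw_nn L M _ _ _ hmets)
  have hQx : ∀ x, ∑ ls, Q (x, ls) = v x ^ 2 := by
    intro x
    calc ∑ ls, Q (x, ls) = ∑ ls, v x ^ 2 * pw L M (mets L (fun y => v y ^ 2) S) ls x :=
          sum_congr rfl fun ls _ => hQ (x, ls)
      _ = v x ^ 2 := by
          rw [← mul_sum, pw_one L M (mets L (fun y => v y ^ 2) S) x
            fun k x => met_one L _ (hS k) x, mul_one]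
  have hQ1 : ∑ w, Q w = 1 := by
    rw [Fintype.sum_prod_type, sum_congr rfl fun x _ => hQx x, hv1]
  -- the bad patterns
  have hbad : ∑ w with Bad w.2, Q w ≤ 1 / 4 := by
    by_contra hcon
    push Not at hcon
    have h1 := compare L hθ S hS v hv hv1 d hd J (univ.filter fun w : X × (Fin M → Lam) =>
      Bad w.2) (by rw [← sum_congr rfl fun w _ => hQ w]; linarith)
    rw [← sum_congr rfl fun w _ => hQ w] at h1
    obtain ⟨q, hq⟩ : ∃ q, q = ∑ w with Bad w.2, Q w := ⟨_, rfl⟩
    obtain ⟨D, hD⟩ : ∃ D, D = 4 * (1 + 1 / θ) * (∑ k, if J k then d k else 0) := ⟨_, rfl⟩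
    have hD0 : 0 ≤ D := by
      rw [hD]
      apply mul_nonneg (by positivity)
      apply sum_nonneg
      intro k _
      split_ifs
      · exact hd0 k
      · exact le_rfl
    rw [← hq, ← hD] at h1
    rw [← hq] at hcon
    rw [← hD] at hb
    have h2 : ∑ w : X × (Fin M → Lam) with Bad w.2, v w.1 ^ 2 *
        pw L M (mix L (fun y => v y ^ 2) S J) w.2 w.1 =
        ∑ ls : Fin M → Lam with Bad ls, ∏ k, S k (ls k) := by
      rw [sum_filter, Fintype.sum_prod_type]
      have h3 : ∀ x, ∑ ls : Fin M → Lam, (if Bad ls then v x ^ 2 *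
          pw L M (mix L (fun y => v y ^ 2) S J) ls x else 0) = v x ^ 2 *
          ∑ ls : Fin M → Lam with Bad ls, ∏ k, S k (ls k) := by
        intro x
        have h4 := path_pat L (fun y => v y ^ 2) M S hS J (fun ls => if Bad ls then 1 else 0)
          (fun ls ls' h => by
            by_cases h5 : Bad ls
            · rw [if_pos h5, if_pos ((hBad ls ls' h).1 h5)]
            · rw [if_neg h5, if_neg fun h6 => h5 ((hBad ls ls' h).2 h6)]) x
        rw [sum_filter]
        calc ∑ ls : Fin M → Lam, (if Bad ls then v x ^ 2 *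
              pw L M (mix L (fun y => v y ^ 2) S J) ls x else 0) =
              v x ^ 2 * ∑ ls : Fin M → Lam, pw L M (mix L (fun y => v y ^ 2) S J) ls x *
                (if Bad ls then 1 else 0) := by
              rw [mul_sum]
              apply sum_congr rfl
              intro ls _
              split_ifs <;> ring
          _ = _ := by
              rw [h4]
              congr 1
              apply sum_congr rfl
              intro ls _
              split_ifs <;> ring
      rw [sum_congr rfl fun x _ => h3 x, ← sum_mul, hv1, one_mul]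
    rw [h2] at h1
    have h3 := h1.trans hb
    have hq0 : 0 < q := by linarith
    have h4 : (D + 1) / q ≤ 4 * (D + 1) := by
      rw [div_le_iff₀ hq0]
      nlinarith
    have h5 : 1 / 4 * Real.exp (- (4 * (D + 1))) < q * Real.exp (- ((D + 1) / q)) := by
      calc 1 / 4 * Real.exp (- (4 * (D + 1))) < q * Real.exp (- (4 * (D + 1))) :=
            mul_lt_mul_of_pos_right hcon (Real.exp_pos _)
        _ ≤ q * Real.exp (- ((D + 1) / q)) :=
            mul_le_mul_of_nonneg_left (Real.exp_le_exp.2 (by linarith)) hq0.le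
    have h6 : Real.exp (- (4 * (D + 2))) = Real.exp (- 4) * Real.exp (- (4 * (D + 1))) := by
      rw [← Real.exp_add]
      congr 1
      ring
    have h7 : Real.exp (- 4) ≤ 1 / 4 := by
      rw [Real.exp_neg, ← one_div]
      apply one_div_le_one_div_of_le (by norm_num)
      linarith [Real.add_one_le_exp (4 : ℝ)]
    have h8 := mul_le_mul_of_nonneg_right h7 (Real.exp_pos (- (4 * (D + 1)))).le
    rw [h6] at h3
    linarith
  -- the good event
  obtain ⟨E, hE⟩ : ∃ E : Finset (X × (Fin M → Lam)), E = univ.filter fun w =>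
      A w.1 ∧ ¬ Bad w.2 ∧ 0 < v (pos L M w.2 w.1) := ⟨_, rfl⟩
  have hgood : 1 / 2 ≤ ∑ w ∈ E, Q w := by
    have h1 : ∑ w with A w.1, Q w = ∑ x with A x, v x ^ 2 := by
      rw [sum_filter, Fintype.sum_prod_type, sum_filter]
      apply sum_congr rfl
      intro x _
      by_cases h : A x
      · simp only [h, if_true]
        exact hQx x
      · simp only [h, if_false]
        exact sum_const_zero
    have h2 : ∑ w with A w.1, Q w ≤ ∑ w ∈ E, Q w + ∑ w with Bad w.2, Q w := by
      rw [hE, sum_filter, sum_filter, sum_filter, ← sum_add_distrib]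
      apply sum_le_sum
      intro w _
      by_cases h3 : A w.1
      · by_cases h4 : Bad w.2
        · rw [if_pos h3, if_neg fun h5 => h5.2.1 h4, if_pos h4, zero_add]
        · rw [if_pos h3, if_neg h4, add_zero]
          by_cases h5 : 0 < v (pos L M w.2 w.1)
          · rw [if_pos ⟨h3, h4, h5⟩]
          · rw [if_neg fun h6 => h5 h6.2.2]
            refine le_of_eq ?_
            by_contra h6
            have h7 : Q w ≠ 0 := h6
            rw [hQ] at h7
            have h8 : 0 < v w.1 ^ 2 := (sq_nonneg _).lt_of_ne (left_ne_zero_of_mul h7).symm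
            have h9 := path_supp L (fun y => v y ^ 2) hm M S w.2 w.1 h8
              (right_ne_zero_of_mul h7)
            have h10 : v (pos L M w.2 w.1) ≠ 0 := fun h11 => by
              simp only [h11] at h9
              norm_num at h9
            exact h5 ((hv _).lt_of_ne h10.symm)
      · rw [if_neg h3]
        apply add_nonneg
        · split_ifs
          · exact hQ0 w
          · exact le_rfl
        · split_ifs
          · exact hQ0 w
          · exact le_rfl
    rw [h1] at h2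
    linarith
  have h1 := compare L hθ S hS v hv hv1 d hd (fun _ => true) E
    (by rw [← sum_congr rfl fun w _ => hQ w]; linarith)
  rw [← sum_congr rfl fun w _ => hQ w] at h1
  obtain ⟨q, hq⟩ : ∃ q, q = ∑ w ∈ E, Q w := ⟨_, rfl⟩
  obtain ⟨D, hD⟩ : ∃ D, D = 4 * (1 + 1 / θ) * ∑ k, d k := ⟨_, rfl⟩
  have hD0 : 0 ≤ D := by
    rw [hD]
    exact mul_nonneg (by positivity) (sum_nonneg fun k _ => hd0 k)
  simp only [if_true] at h1
  rw [← hq, ← hD] at h1
  rw [← hq] at hgood
  rw [← hD]
  have hq0 : 0 < q := by linarith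
  have h2 : ∑ w ∈ E, v w.1 ^ 2 * pw L M (mix L (fun y => v y ^ 2) S fun _ => true) w.2 w.1 =
      ∑ x with A x, v x ^ 2 * ∑ ls : Fin M → Lam with (¬ Bad ls ∧ 0 < v (pos L M ls x)),
        ∏ k, S k (ls k) := by
    rw [hE, sum_filter, Fintype.sum_prod_type, sum_filter]
    apply sum_congr rfl
    intro x _
    have h3 : ∀ ls, pw L M (mix L (fun y => v y ^ 2) S fun _ => true) ls x =
        ∏ k, S k (ls k) := fun ls => by
      rw [← pw_free L M S ls x]
      congr 1
    by_cases h : A x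
    · simp only [h, true_and, if_true]
      rw [mul_sum, sum_filter]
      apply sum_congr rfl
      intro ls _
      rw [h3]
    · simp only [h, false_and, if_false]
      exact sum_const_zero
  rw [h2] at h1
  refine le_trans ?_ h1
  have h4 : (D + 1) / q ≤ 2 * (D + 1) := by
    rw [div_le_iff₀ hq0]
    nlinarith
  calc 1 / 2 * Real.exp (- (2 * (D + 1))) ≤ q * Real.exp (- (2 * (D + 1))) :=
        mul_le_mul_of_nonneg_right hgood (Real.exp_pos _).le
    _ ≤ q * Real.exp (- ((D + 1) / q)) :=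
        mul_le_mul_of_nonneg_left (Real.exp_le_exp.2 (by linarith)) hq0.le

end Pool.Agent.Helper35.MP
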