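import Mathlib

/-!
# The Metropolis chain of a near-invariant function

`X` is a finite set, `Lam` a finite set of letters acting on `X` by permutations `L.act l`, closed
under inverses, with a trivial letter `L.e`. A schedule is a sequence `S k` (`k < M`) of symmetric
probability weights on the letters with `S k L.e ≥ θ`. For `v ≥ 0` with `∑ v ^ 2 = 1` the Metropolis
chain with the stationary law `m = v ^ 2` follows the schedule, a rejected letter is recorded as the
trivial letter. Everything is stated for sums over the letter sequences `ls : Fin M → Lam`.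
-/

set_option autoImplicit false
set_option linter.unusedSectionVars false

namespace Pool.Agent.Helper35.MP

open Finset

variable {X Lam : Type*} [Fintype X] [Fintype Lam] [DecidableEq Lam]

/-- letters acting on `X` -/
structure Letters (X Lam : Type*) where
  act : Lam → Equiv.Perm X
  inv : Lam → Lam
  inv_inv : ∀ l, inv (inv l) = l
  act_inv : ∀ l, act (inv l) = (act l)⁻¹
  e : Lam
  act_e : act e = 1

/-- symmetric weights -/
structure Wt (L : Letters X Lam) (θ : ℝ) (S : Lam → ℝ) : Prop where
  nn : ∀ l, 0 ≤ S l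
  one : ∑ l, S l = 1
  sym : ∀ l, S (L.inv l) = S l
  lazy : θ ≤ S L.e

/-- the probability of acceptance -/
noncomputable def acc (L : Letters X Lam) (m : X → ℝ) (x : X) (l : Lam) : ℝ :=
  if m x ≤ m (L.act l x) then 1 else m (L.act l x) / m x

/-- the Metropolis kernel -/
noncomputable def met (L : Letters X Lam) (m : X → ℝ) (S : Lam → ℝ) (x : X) (l : Lam) : ℝ :=
  S l * acc L m x l + if l = L.e then ∑ l', S l' * (1 - acc L m x l') else 0

/-- the position after the letters `ls` -/
def pos (L : Letters X Lam) : (M : ℕ) → (Fin M → Lam) → X → X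
  | 0, _, x => x
  | M + 1, ls, x => pos L M (fun k => ls k.succ) (L.act (ls 0) x)

/-- the weight of a path for the kernels `W k` -/
noncomputable def pw (L : Letters X Lam) : (M : ℕ) → (Fin M → X → Lam → ℝ) → (Fin M → Lam) → X → ℝ
  | 0, _, _, _ => 1
  | M + 1, W, ls, x => W 0 x (ls 0) *
      pw L M (fun k => W k.succ) (fun k => ls k.succ) (L.act (ls 0) x)

/-- the sum of `g k` at the positions along a path -/
noncomputable def ps (L : Letters X Lam) : (M : ℕ) → (Fin M → X → Lam → ℝ) → (Fin M → Lam) → X → ℝ
  | 0, _, _, _ => 0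
  | M + 1, g, ls, x => g 0 x (ls 0) +
      ps L M (fun k => g k.succ) (fun k => ls k.succ) (L.act (ls 0) x)

section acc

variable (L : Letters X Lam) (m : X → ℝ)

theorem acc_nn (hm : ∀ x, 0 ≤ m x) (x : X) (l : Lam) : 0 ≤ acc L m x l := by
  unfold acc
  split_ifs with h
  · exact zero_le_one
  · exact div_nonneg (hm _) (hm _)

theorem acc_le (hm : ∀ x, 0 ≤ m x) (x : X) (l : Lam) : acc L m x l ≤ 1 := by
  unfold acc
  split_ifs with h
  · exact le_rfl
  · push Not at h
    have h0 : 0 < m x := lt_of_le_of_lt (hm _) h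
    rw [div_le_one h0]
    exact h.le

theorem acc_e (x : X) : acc L m x L.e = 1 := by
  unfold acc
  rw [L.act_e, Equiv.Perm.one_apply, if_pos le_rfl]

theorem m_acc (hm : ∀ x, 0 ≤ m x) (x : X) (l : Lam) :
    m x * acc L m x l = min (m x) (m (L.act l x)) := by
  unfold acc
  split_ifs with h
  · rw [mul_one, min_eq_left h]
  · push Not at h
    have h0 : 0 < m x := lt_of_le_of_lt (hm _) h
    rw [min_eq_right h.le, mul_div_cancel₀ _ h0.ne']

end acc

section met

variable (L : Letters X Lam) (m : X → ℝ) (hm : ∀ x, 0 ≤ m x) {θ : ℝ} {S : Lam → ℝ}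

include hm

theorem met_nn (hS : Wt L θ S) (x : X) (l : Lam) : 0 ≤ met L m S x l := by
  unfold met
  apply add_nonneg (mul_nonneg (hS.nn l) (acc_nn L m hm x l))
  split_ifs
  · exact sum_nonneg fun l' _ => mul_nonneg (hS.nn l') (by linarith [acc_le L m hm x l'])
  · exact le_rfl

omit hm in
theorem met_one (hS : Wt L θ S) (x : X) : ∑ l, met L m S x l = 1 := by
  unfold met
  rw [sum_add_distrib, sum_ite_eq' univ L.e, if_pos (mem_univ _), ← sum_add_distrib]
  exact (sum_congr rfl fun l _ => by ring).trans hS.one

/-- stationarity -/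
theorem met_stat (hS : Wt L θ S) (F : X → ℝ) :
    ∑ x, m x * ∑ l, met L m S x l * F (L.act l x) = ∑ x, m x * F x := by
  have h1 : ∀ x, m x * ∑ l, met L m S x l * F (L.act l x) =
      (∑ l, S l * (min (m x) (m (L.act l x)) * F (L.act l x))) +
        m x * (∑ l, S l * (1 - acc L m x l)) * F x := by
    intro x
    have h2 : ∑ l, met L m S x l * F (L.act l x) =
        (∑ l, S l * acc L m x l * F (L.act l x)) +
          (∑ l, S l * (1 - acc L m x l)) * F x := by
      unfold met
      simp only [add_mul]
      rw [sum_add_distrib]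
      congr 1
      rw [sum_eq_single L.e]
      · rw [if_pos rfl, L.act_e, Equiv.Perm.one_apply]
      · intro l _ hl
        rw [if_neg hl, zero_mul]
      · intro h
        exact absurd (mem_univ _) h
    rw [h2, mul_add, mul_sum, mul_assoc]
    congr 1
    apply sum_congr rfl
    intro l _
    rw [← m_acc L m hm x l]
    ring
  have h3 : ∑ x, ∑ l, S l * (min (m x) (m (L.act l x)) * F (L.act l x)) =
      ∑ x, ∑ l, S l * (min (m x) (m (L.act l x)) * F x) := by
    rw [sum_comm]
    have h4 : ∀ l, ∑ x, S l * (min (m x) (m (L.act l x)) * F (L.act l x)) =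
        ∑ x, S (L.inv l) * (min (m x) (m (L.act (L.inv l) x)) * F x) := by
      intro l
      rw [← Equiv.sum_comp (L.act l) (fun x => S (L.inv l) *
        (min (m x) (m (L.act (L.inv l) x)) * F x))]
      apply sum_congr rfl
      intro x _
      rw [L.act_inv, show (L.act l)⁻¹ (L.act l x) = x from Equiv.symm_apply_apply _ _, hS.sym,
        min_comm]
    rw [sum_congr rfl fun l _ => h4 l]
    let ie : Lam ≃ Lam := ⟨L.inv, L.inv, L.inv_inv, L.inv_inv⟩
    exact (Equiv.sum_comp ie (fun l => ∑ x, S l * (min (m x) (m (L.act l x)) * F x))).trans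
      sum_comm
  rw [sum_congr rfl fun x _ => h1 x, sum_add_distrib, h3, ← sum_add_distrib]
  apply sum_congr rfl
  intro x _
  have h5 : ∑ l, S l * (min (m x) (m (L.act l x)) * F x) =
      m x * (∑ l, S l * acc L m x l) * F x := by
    rw [mul_sum, sum_mul]
    apply sum_congr rfl
    intro l _
    rw [← m_acc L m hm x l]
    ring
  have h6 : (∑ l, S l * acc L m x l) + ∑ l, S l * (1 - acc L m x l) = 1 := by
    rw [← sum_add_distrib]
    exact (sum_congr rfl fun l _ => by ring).trans hS.one
  rw [h5, ← add_mul, ← mul_add, h6, mul_one]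

/-- the relative entropy of one step -/
theorem met_kl (hθ : 0 < θ) (hS : Wt L θ S) (x : X) :
    ∑ l, met L m S x l * Real.log (met L m S x l / S l) ≤
      (1 + 1 / θ) * ∑ l, S l * (1 - acc L m x l) ^ 2 := by
  obtain ⟨R, hR⟩ : ∃ R, R = ∑ l, S l * (1 - acc L m x l) := ⟨_, rfl⟩
  have hSe : 0 < S L.e := lt_of_lt_of_le hθ hS.lazy
  have hR0 : 0 ≤ R := by
    rw [hR]
    exact sum_nonneg fun l' _ => mul_nonneg (hS.nn l') (by linarith [acc_le L m hm x l'])
  have h1 : ∀ l, met L m S x l * Real.log (met L m S x l / S l) ≤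
      S l * ((acc L m x l) ^ 2 - acc L m x l) + if l = L.e then R + R ^ 2 / S L.e else 0 := by
    intro l
    by_cases hl : l = L.e
    · rw [if_pos hl, hl, acc_e]
      have h2 : met L m S x L.e = S L.e + R := by
        unfold met
        rw [if_pos rfl, acc_e, mul_one, hR]
      rw [h2]
      have h3 : Real.log ((S L.e + R) / S L.e) ≤ R / S L.e := by
        have h4 := Real.log_le_sub_one_of_pos (show 0 < (S L.e + R) / S L.e by positivity)
        have h5 : (S L.e + R) / S L.e - 1 = R / S L.e := by
          field_simp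
          ring
        rw [h5] at h4
        exact h4
      have h6 : (S L.e + R) * Real.log ((S L.e + R) / S L.e) ≤ (S L.e + R) * (R / S L.e) :=
        mul_le_mul_of_nonneg_left h3 (by positivity)
      have h7 : (S L.e + R) * (R / S L.e) = R + R ^ 2 / S L.e := by
        field_simp
      rw [h7] at h6
      linarith
    · rw [if_neg hl, add_zero]
      have h2 : met L m S x l = S l * acc L m x l := by
        unfold met
        rw [if_neg hl, add_zero]
      rw [h2]
      rcases (hS.nn l).eq_or_lt with h0 | h0
      · rw [← h0]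
        simp
      · rw [mul_div_cancel_left₀ _ h0.ne']
        rcases (acc_nn L m hm x l).eq_or_lt with h3 | h3
        · rw [← h3]
          simp
        · have h4 := Real.log_le_sub_one_of_pos h3
          have h5 : S l * acc L m x l * Real.log (acc L m x l) ≤
              S l * acc L m x l * (acc L m x l - 1) :=
            mul_le_mul_of_nonneg_left h4 (by positivity)
          refine h5.trans (le_of_eq ?_)
          ring
  have h2 := sum_le_sum fun l (_ : l ∈ univ) => h1 l
  rw [sum_add_distrib, sum_ite_eq' univ L.e, if_pos (mem_univ _)] at h2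
  refine h2.trans ?_
  obtain ⟨V, hV⟩ : ∃ V, V = ∑ l, S l * (1 - acc L m x l) ^ 2 := ⟨_, rfl⟩
  have h3 : ∑ l, S l * ((acc L m x l) ^ 2 - acc L m x l) + R = V := by
    rw [hR, hV, ← sum_add_distrib]
    exact sum_congr rfl fun l _ => by ring
  have h4 : R ^ 2 ≤ V := by
    have h5 := sum_sq_le_sum_mul_sum_of_sq_le_mul univ (r := fun l => S l * (1 - acc L m x l))
      (f := S) (g := fun l => S l * (1 - acc L m x l) ^ 2) (fun l _ => hS.nn l)
      (fun l _ => mul_nonneg (hS.nn l) (sq_nonneg _)) (fun l _ => le_of_eq (by ring))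
    rw [hS.one, one_mul, ← hR, ← hV] at h5
    exact h5
  have hV0 : 0 ≤ V := (sq_nonneg R).trans h4
  rw [← hV]
  have h5 : R ^ 2 / S L.e ≤ V / θ := by
    rw [div_le_div_iff₀ hSe hθ]
    calc R ^ 2 * θ ≤ V * θ := mul_le_mul_of_nonneg_right h4 hθ.le
      _ ≤ V * S L.e := mul_le_mul_of_nonneg_left hS.lazy hV0
  have h6 : (1 + 1 / θ) * V = V + V / θ := by ring
  rw [h6]
  linarith

end met

end Pool.Agent.Helper35.MP
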