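import Pool.Agent.Helper35.MP.Metro

/-!
# The Metropolis chain: paths
-/

set_option autoImplicit false
set_option linter.unusedSectionVars false

namespace Pool.Agent.Helper35.MP

open Finset

variable {X Lam : Type*} [Fintype X] [Fintype Lam] [DecidableEq Lam]

theorem sum_succ {M : ℕ} (f : (Fin (M + 1) → Lam) → ℝ) :
    ∑ ls, f ls = ∑ l, ∑ ls' : Fin M → Lam, f (Fin.cons l ls') := by
  rw [← (Fin.consEquiv (fun _ : Fin (M + 1) => Lam)).sum_comp, Fintype.sum_prod_type]
  rfl

theorem pw_cons (L : Letters X Lam) {M : ℕ} (W : Fin (M + 1) → X → Lam → ℝ) (l : Lam)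
    (ls : Fin M → Lam) (x : X) : pw L (M + 1) W (Fin.cons l ls) x =
      W 0 x l * pw L M (fun k => W k.succ) ls (L.act l x) := by
  show W 0 x ((Fin.cons l ls : Fin (M + 1) → Lam) 0) * pw L M (fun k => W k.succ)
    (fun k => (Fin.cons l ls : Fin (M + 1) → Lam) k.succ)
    (L.act ((Fin.cons l ls : Fin (M + 1) → Lam) 0) x) = _
  simp only [Fin.cons_zero, Fin.cons_succ]

theorem ps_cons (L : Letters X Lam) {M : ℕ} (g : Fin (M + 1) → X → Lam → ℝ) (l : Lam)
    (ls : Fin M → Lam) (x : X) : ps L (M + 1) g (Fin.cons l ls) x =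
      g 0 x l + ps L M (fun k => g k.succ) ls (L.act l x) := by
  show g 0 x ((Fin.cons l ls : Fin (M + 1) → Lam) 0) + ps L M (fun k => g k.succ)
    (fun k => (Fin.cons l ls : Fin (M + 1) → Lam) k.succ)
    (L.act ((Fin.cons l ls : Fin (M + 1) → Lam) 0) x) = _
  simp only [Fin.cons_zero, Fin.cons_succ]

theorem pos_cons (L : Letters X Lam) {M : ℕ} (l : Lam) (ls : Fin M → Lam) (x : X) :
    pos L (M + 1) (Fin.cons l ls) x = pos L M ls (L.act l x) := by
  show pos L M (fun k => (Fin.cons l ls : Fin (M + 1) → Lam) k.succ)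
    (L.act ((Fin.cons l ls : Fin (M + 1) → Lam) 0) x) = _
  simp only [Fin.cons_zero, Fin.cons_succ]

theorem pw_nn (L : Letters X Lam) : ∀ (M : ℕ) (W : Fin M → X → Lam → ℝ) (ls : Fin M → Lam) (x : X),
    (∀ k x l, 0 ≤ W k x l) → 0 ≤ pw L M W ls x
  | 0, _, _, _, _ => zero_le_one
  | M + 1, _, _, _, h => mul_nonneg (h _ _ _) (pw_nn L M _ _ _ fun k x l => h k.succ x l)

theorem pw_one (L : Letters X Lam) : ∀ (M : ℕ) (W : Fin M → X → Lam → ℝ) (x : X),
    (∀ k x, ∑ l, W k x l = 1) → ∑ ls, pw L M W ls x = 1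
  | 0, W, x, _ => by
    rw [Fintype.sum_eq_single (fun k => k.elim0)]
    · rfl
    · intro ls hls
      exact absurd (Subsingleton.elim _ _) hls
  | M + 1, W, x, h => by
    rw [sum_succ, ← h 0 x]
    apply sum_congr rfl
    intro l _
    rw [sum_congr rfl fun ls _ => pw_cons L W l ls x, ← mul_sum,
      pw_one L M _ _ fun k x => h k.succ x, mul_one]

/-- the kernels which are free in the slots `J` and Metropolis in the other slots -/
noncomputable def mix (L : Letters X Lam) (m : X → ℝ) {M : ℕ} (S : Fin M → Lam → ℝ)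
    (J : Fin M → Bool) (k : Fin M) (x : X) (l : Lam) : ℝ :=
  if J k then S k l else met L m (S k) x l

/-- the logarithm of the density -/
noncomputable def lt (L : Letters X Lam) (m : X → ℝ) {M : ℕ} (S : Fin M → Lam → ℝ)
    (J : Fin M → Bool) (k : Fin M) (x : X) (l : Lam) : ℝ :=
  if J k then Real.log (met L m (S k) x l / S k l) else 0

/-- the Metropolis kernels -/
noncomputable def mets (L : Letters X Lam) (m : X → ℝ) {M : ℕ} (S : Fin M → Lam → ℝ)
    (k : Fin M) (x : X) (l : Lam) : ℝ := met L m (S k) x l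

theorem step_le (L : Letters X Lam) (m : X → ℝ) (hm : ∀ x, 0 ≤ m x) {θ : ℝ} (hθ : 0 < θ) {M : ℕ}
    (S : Fin M → Lam → ℝ) (hS : ∀ k, Wt L θ (S k)) (J : Fin M → Bool) (k : Fin M) (x : X)
    (l : Lam) : mets L m S k x l * Real.exp (- lt L m S J k x l) ≤ mix L m S J k x l := by
  unfold mets lt mix
  have h0 := met_nn L m hm (hS k) x l
  cases hJ : J k
  · simp
  · simp only [if_true]
    rcases h0.eq_or_lt with h1 | h1
    · rw [← h1, zero_mul]
      exact (hS k).nn l
    · have hSl : 0 < S k l := by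
        rcases ((hS k).nn l).eq_or_lt with h2 | h2
        · exfalso
          have hle : l ≠ L.e := by
            intro h
            rw [h] at h2
            linarith [(hS k).lazy]
          unfold met at h1
          rw [if_neg hle, ← h2, zero_mul, zero_add] at h1
          exact lt_irrefl _ h1
        · exact h2
      rw [Real.exp_neg, Real.exp_log (by positivity), inv_div, mul_div_cancel₀ _ h1.ne']

theorem path_le (L : Letters X Lam) (m : X → ℝ) (hm : ∀ x, 0 ≤ m x) {θ : ℝ} (hθ : 0 < θ) :
    ∀ (M : ℕ) (S : Fin M → Lam → ℝ), (∀ k, Wt L θ (S k)) → ∀ (J : Fin M → Bool)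
      (ls : Fin M → Lam) (x : X), pw L M (mets L m S) ls x * Real.exp (- ps L M (lt L m S J) ls x) ≤
        pw L M (mix L m S J) ls x
  | 0, _, _, _, _, _ => by
    show 1 * Real.exp (- 0) ≤ 1
    rw [neg_zero, Real.exp_zero, one_mul]
  | M + 1, S, hS, J, ls, x => by
    show (mets L m S 0 x (ls 0) * pw L M (fun k => mets L m S k.succ) (fun k => ls k.succ)
        (L.act (ls 0) x)) * Real.exp (- (lt L m S J 0 x (ls 0) +
          ps L M (fun k => lt L m S J k.succ) (fun k => ls k.succ) (L.act (ls 0) x))) ≤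
      mix L m S J 0 x (ls 0) * pw L M (fun k => mix L m S J k.succ) (fun k => ls k.succ)
        (L.act (ls 0) x)
    have h1 := step_le L m hm hθ S hS J 0 x (ls 0)
    have h2 := path_le L m hm hθ M (fun k => S k.succ) (fun k => hS k.succ) (fun k => J k.succ)
      (fun k => ls k.succ) (L.act (ls 0) x)
    rw [neg_add, Real.exp_add]
    have h3 : 0 ≤ mets L m S 0 x (ls 0) * Real.exp (- lt L m S J 0 x (ls 0)) :=
      mul_nonneg (met_nn L m hm (hS 0) _ _) (Real.exp_pos _).le
    have h4 : 0 ≤ pw L M (fun k => mix L m S J k.succ) (fun k => ls k.succ) (L.act (ls 0) x) := by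
      apply pw_nn
      intro k x l
      unfold mix
      split_ifs
      · exact (hS k.succ).nn l
      · exact met_nn L m hm (hS k.succ) x l
    calc _ = (mets L m S 0 x (ls 0) * Real.exp (- lt L m S J 0 x (ls 0))) *
          (pw L M (fun k => mets L m S k.succ) (fun k => ls k.succ) (L.act (ls 0) x) *
            Real.exp (- ps L M (fun k => lt L m S J k.succ) (fun k => ls k.succ)
              (L.act (ls 0) x))) := by ring
      _ ≤ (mets L m S 0 x (ls 0) * Real.exp (- lt L m S J 0 x (ls 0))) *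
          pw L M (fun k => mix L m S J k.succ) (fun k => ls k.succ) (L.act (ls 0) x) :=
        mul_le_mul_of_nonneg_left h2 h3
      _ ≤ _ := mul_le_mul_of_nonneg_right h1 h4

theorem path_exp (L : Letters X Lam) (m : X → ℝ) (hm : ∀ x, 0 ≤ m x) {θ : ℝ} :
    ∀ (M : ℕ) (S : Fin M → Lam → ℝ), (∀ k, Wt L θ (S k)) → ∀ g : Fin M → X → Lam → ℝ,
      ∑ x, m x * ∑ ls, pw L M (mets L m S) ls x * ps L M g ls x =
        ∑ k, ∑ x, m x * ∑ l, met L m (S k) x l * g k x l
  | 0, S, _, g => by
    rw [Finset.univ_eq_empty (α := Fin 0), sum_empty]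
    apply sum_eq_zero
    intro x _
    rw [sum_eq_zero, mul_zero]
    intro ls _
    show _ * (0 : ℝ) = 0
    rw [mul_zero]
  | M + 1, S, hS, g => by
    obtain ⟨G, hG⟩ : ∃ G : X → ℝ, ∀ y, G y = ∑ ls : Fin M → Lam,
        pw L M (fun k => mets L m S k.succ) ls y * ps L M (fun k => g k.succ) ls y :=
      ⟨_, fun _ => rfl⟩
    have h1 : ∀ x, ∑ ls, pw L (M + 1) (mets L m S) ls x * ps L (M + 1) g ls x =
        (∑ l, met L m (S 0) x l * g 0 x l) + ∑ l, met L m (S 0) x l * G (L.act l x) := by
      intro x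
      rw [sum_succ, ← sum_add_distrib]
      apply sum_congr rfl
      intro l _
      rw [hG, mul_sum]
      have h2 : ∑ ls : Fin M → Lam, pw L M (fun k => mets L m S k.succ) ls (L.act l x) = 1 :=
        pw_one L M _ _ fun k x => met_one L m (hS k.succ) x
      calc ∑ ls : Fin M → Lam, pw L (M + 1) (mets L m S) (Fin.cons l ls) x *
            ps L (M + 1) g (Fin.cons l ls) x = ∑ ls : Fin M → Lam,
            (met L m (S 0) x l * g 0 x l *
              pw L M (fun k => mets L m S k.succ) ls (L.act l x) +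
              met L m (S 0) x l * (pw L M (fun k => mets L m S k.succ) ls (L.act l x) *
                ps L M (fun k => g k.succ) ls (L.act l x))) := by
            apply sum_congr rfl
            intro ls _
            rw [pw_cons, ps_cons]
            show met L m (S 0) x l * _ * _ = _
            ring
        _ = _ := by
            rw [sum_add_distrib, ← mul_sum, h2, mul_one]
    rw [sum_congr rfl fun x _ => by rw [h1 x, mul_add], sum_add_distrib,
      met_stat L m hm (hS 0) G, Fin.sum_univ_succ]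
    congr 1
    have h3 := path_exp L m hm M (fun k => S k.succ) (fun k => hS k.succ) (fun k => g k.succ)
    rw [← h3]
    apply sum_congr rfl
    intro x _
    rw [hG]
    rfl

/-- the chain stays in the support -/
theorem path_supp (L : Letters X Lam) (m : X → ℝ) (hm : ∀ x, 0 ≤ m x) :
    ∀ (M : ℕ) (S : Fin M → Lam → ℝ) (ls : Fin M → Lam) (x : X),
      0 < m x → pw L M (mets L m S) ls x ≠ 0 → 0 < m (pos L M ls x)
  | 0, _, _, _, h, _ => h
  | M + 1, S, ls, x, h, h2 => by
    have h3 : mets L m S 0 x (ls 0) * pw L M (fun k => mets L m S k.succ) (fun k => ls k.succ)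
        (L.act (ls 0) x) ≠ 0 := h2
    refine path_supp L m hm M (fun k => S k.succ) (fun k => ls k.succ) (L.act (ls 0) x) ?_
      (right_ne_zero_of_mul h3)
    have h4 : met L m (S 0) x (ls 0) ≠ 0 := left_ne_zero_of_mul h3
    by_cases hl : ls 0 = L.e
    · rw [hl, L.act_e, Equiv.Perm.one_apply]
      exact h
    · unfold met at h4
      rw [if_neg hl, add_zero] at h4
      have h5 := right_ne_zero_of_mul h4
      unfold acc at h5
      split_ifs at h5 with h6
      · exact lt_of_lt_of_le h h6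
      · refine (hm _).lt_of_ne fun h7 => h5 ?_
        rw [← h7, zero_div]

/-- the pattern of the free slots is independent -/
theorem path_pat (L : Letters X Lam) (m : X → ℝ) {θ : ℝ} :
    ∀ (M : ℕ) (S : Fin M → Lam → ℝ), (∀ k, Wt L θ (S k)) → ∀ (J : Fin M → Bool)
      (h : (Fin M → Lam) → ℝ), (∀ ls ls' : Fin M → Lam, (∀ k, J k = true → ls k = ls' k) →
        h ls = h ls') → ∀ x, ∑ ls, pw L M (mix L m S J) ls x * h ls =
          ∑ ls : Fin M → Lam, (∏ k, S k (ls k)) * h ls
  | 0, S, _, J, h, _, x => by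
    apply sum_congr rfl
    intro ls _
    show 1 * h ls = _
    rw [Finset.univ_eq_empty (α := Fin 0), prod_empty]
  | M + 1, S, hS, J, h, hh, x => by
    obtain ⟨C, hC⟩ : ∃ C : Lam → ℝ, ∀ l, C l = ∑ ls : Fin M → Lam,
        (∏ k : Fin M, S k.succ (ls k)) * h (Fin.cons l ls) := ⟨_, fun _ => rfl⟩
    have h1 : ∀ l y, ∑ ls : Fin M → Lam, pw L M (fun k => mix L m S J k.succ) ls y *
        h (Fin.cons l ls) = C l := by
      intro l y
      rw [hC]
      refine path_pat L m M (fun k => S k.succ) (fun k => hS k.succ) (fun k => J k.succ)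
        (fun ls => h (Fin.cons l ls)) ?_ y
      intro ls ls' hls
      apply hh
      intro k
      refine Fin.cases ?_ (fun k => ?_) k
      · intro _
        rw [Fin.cons_zero, Fin.cons_zero]
      · intro hk
        rw [Fin.cons_succ, Fin.cons_succ]
        exact hls k hk
    have h2 : ∑ ls, pw L (M + 1) (mix L m S J) ls x * h ls =
        ∑ l, mix L m S J 0 x l * C l := by
      rw [sum_succ]
      apply sum_congr rfl
      intro l _
      rw [← h1 l (L.act l x), mul_sum]
      apply sum_congr rfl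
      intro ls _
      rw [pw_cons]
      ring
    have h3 : ∑ ls : Fin (M + 1) → Lam, (∏ k, S k (ls k)) * h ls = ∑ l, S 0 l * C l := by
      rw [sum_succ]
      apply sum_congr rfl
      intro l _
      rw [hC, mul_sum]
      apply sum_congr rfl
      intro ls _
      rw [Fin.prod_univ_succ]
      simp only [Fin.cons_zero, Fin.cons_succ]
      ring
    rw [h2, h3]
    unfold mix
    cases hJ : J 0
    · have h4 : ∀ l, C l = C L.e := by
        intro l
        rw [hC, hC]
        apply sum_congr rfl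
        intro ls _
        congr 1
        apply hh
        intro k
        refine Fin.cases ?_ (fun k => ?_) k
        · intro h5
          rw [hJ] at h5
          exact absurd h5 (by decide)
        · intro _
          rw [Fin.cons_succ, Fin.cons_succ]
      simp only [Bool.false_eq_true, if_false]
      have h5 : ∀ K : Lam → ℝ, ∑ l, K l = 1 → ∑ l, K l * C l = C L.e := by
        intro K hK
        calc ∑ l, K l * C l = ∑ l, K l * C L.e := sum_congr rfl fun l _ => by rw [← h4 l]
          _ = C L.e := by rw [← sum_mul, hK, one_mul]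
      rw [h5 _ (met_one L m (hS 0) x), h5 _ (hS 0).one]
    · simp only [if_true]

theorem pw_free (L : Letters X Lam) : ∀ (M : ℕ) (S : Fin M → Lam → ℝ) (ls : Fin M → Lam) (x : X),
    pw L M (fun k _ l => S k l) ls x = ∏ k, S k (ls k)
  | 0, _, _, _ => by
    show (1 : ℝ) = _
    rw [Finset.univ_eq_empty (α := Fin 0), prod_empty]
  | M + 1, S, ls, x => by
    rw [Fin.prod_univ_succ, ← pw_free L M (fun k => S k.succ) (fun k => ls k.succ)
      (L.act (ls 0) x)]
    rfl

/-- Jensen -/
theorem jensen {Om : Type*} [Fintype Om] (Q R lam : Om → ℝ) (hQ : ∀ w, 0 ≤ Q w)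
    (hR : ∀ w, 0 ≤ R w) (h : ∀ w, Q w * Real.exp (- lam w) ≤ R w) (hR1 : ∑ w, R w ≤ 1) (D : ℝ)
    (hD : ∑ w, Q w * lam w ≤ D) (E : Finset Om) [DecidableEq Om] (hq : 0 < ∑ w ∈ E, Q w) :
    (∑ w ∈ E, Q w) * Real.exp (- ((D + 1) / ∑ w ∈ E, Q w)) ≤ ∑ w ∈ E, R w := by
  obtain ⟨q, hqe⟩ : ∃ q, q = ∑ w ∈ E, Q w := ⟨_, rfl⟩
  obtain ⟨c, hc⟩ : ∃ c, c = (D + 1) / q := ⟨_, rfl⟩
  rw [← hqe] at hq ⊢
  rw [← hc]
  have h1 : ∑ w ∈ E, Q w * lam w ≤ D + 1 := by
    have h2 : ∑ w ∈ E, Q w * lam w + ∑ w ∈ Eᶜ, Q w * lam w = ∑ w, Q w * lam w :=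
      sum_add_sum_compl E _
    have h3 : - ∑ w ∈ Eᶜ, Q w * lam w ≤ 1 := by
      calc - ∑ w ∈ Eᶜ, Q w * lam w = ∑ w ∈ Eᶜ, Q w * (- lam w) := by
            rw [← sum_neg_distrib]
            exact sum_congr rfl fun w _ => by ring
        _ ≤ ∑ w ∈ Eᶜ, R w := by
            apply sum_le_sum
            intro w _
            refine (mul_le_mul_of_nonneg_left ?_ (hQ w)).trans (h w)
            linarith [Real.add_one_le_exp (- lam w)]
        _ ≤ ∑ w, R w := sum_le_sum_of_subset_of_nonneg (subset_univ _) fun w _ _ => hR w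
        _ ≤ 1 := hR1
    linarith
  calc q * Real.exp (-c) = Real.exp (-c) * (q * (1 + c) - (D + 1)) := by
        rw [hc]
        field_simp
        ring
    _ ≤ Real.exp (-c) * (q * (1 + c) - ∑ w ∈ E, Q w * lam w) :=
        mul_le_mul_of_nonneg_left (by linarith) (Real.exp_pos _).le
    _ = ∑ w ∈ E, Q w * (Real.exp (-c) * (1 + c - lam w)) := by
        rw [hqe, sum_mul, ← sum_sub_distrib, mul_sum]
        exact sum_congr rfl fun w _ => by ring
    _ ≤ ∑ w ∈ E, R w := by
        apply sum_le_sum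
        intro w _
        refine (mul_le_mul_of_nonneg_left ?_ (hQ w)).trans (h w)
        have h4 : Real.exp (- lam w) = Real.exp (-c) * Real.exp (c - lam w) := by
          rw [← Real.exp_add]
          congr 1
          ring
        rw [h4]
        apply mul_le_mul_of_nonneg_left _ (Real.exp_pos _).le
        linarith [Real.add_one_le_exp (c - lam w)]

end Pool.Agent.Helper35.MP
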